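import Pool.Agent.Y149.AR.All
import Pool.Agent.Y759.AR.Unr
import Pool.Agent.Y824.AR.Ft
import Pool.Agent.H484R2.Zeta

/-!
# L-functions of number fields: for almost all levels the solutions are algebraically independent

Let `f` be the product of the Riemann xi function and of finitely many completed L-functions
`Λ_1, …, Λ_n` whose product is real on the real axis.  The factors `Λ_i` may be

* the completed L-functions of arbitrary primitive ray class characters of arbitrary number fields,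
  in particular the completed Dedekind zeta functions of all number fields (their existence, with
  the functional equation, is part of the theorem),
* the completed Artin L-functions of representations of Galois groups over `ℚ` for which Artin's
  conjecture holds.

We prove that there is a countable set `Exc` of complex numbers, the same for countably many `f`,
such that for every level `a` outside `Exc` all solutions of `f(s) = a` are simple and, up to the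
symmetry `s ↦ 1 - s`, algebraically independent over `K(a)` (`K` any given countable field), and for
real `a` the positive imaginary parts of the solutions are algebraically independent over `K(a)` and
belong to one solution each, up to the symmetry `s ↦ 1 - conj s`.

If `E` is a finite Galois extension of `ℚ`, the zeros of all Artin L-functions `L(s, χ, E/ℚ)` are
zeros of `f = ξ Λ`, `Λ` the completed Dedekind zeta function of `E` (if these L-functions are
entire); if all irreducible characters `χ ≠ 1` of `Gal(E/ℚ)` are monomial, `L(s, χ, E/ℚ)` is the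
L-function of a primitive ray class character `ψ_χ` of a subfield of `E`, and the zeros of
`f = ξ ∏ Λ(s, ψ_χ)` are the zeros of all these L-functions with their multiplicities.

Joint work of helper149 with helper759 (functional equation of unramified characters and Dedekind
zeta functions) and helper824 (Fourier transforms of indicator functions of ideals), on top of the
theorem of helper922 and the authors of project AQ on good functions, and of the library of helper773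
on ray class characters of number fields (with helper772).
-/

set_option autoImplicit false

open Filter Topology NumberField

namespace Pool.Agent.Results.MP_347b49_nt.AlmostAllLevels

/-- The Riemann xi function: `ξ(s) = (s (s - 1) Λ₀(s) + 1) / 2 = s (s - 1) π^(-s/2) Γ(s/2) ζ(s) / 2`. -/
noncomputable def xi (s : ℂ) : ℂ := (s * (s - 1) * completedRiemannZeta₀ s + 1) / 2

/-! ### Ray class characters of number fields -/

section hecke

variable (K : Type) [Field K] [NumberField K]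

/-- `x` is totally positive. -/
def TotPos (x : 𝓞 K) : Prop := ∀ σ : K →+* ℝ, 0 < σ (x : K)

/-- `ψ`, a function on the ideals of `K`, is a primitive ray class character of conductor `𝔣` (times
some real places): multiplicative, zero exactly at the ideals not prime to `𝔣`, and `1` at the
principal ideals of the totally positive `x ≡ 1 mod 𝔣`; this fails for every proper divisor `𝔤` of
`𝔣` in place of `𝔣`.  The trivial character (`𝔣 = (1)`) and the characters of the class group are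
included. -/
structure IsPrimChar (𝔣 : Ideal (𝓞 K)) (ψ : Ideal (𝓞 K) →*₀ ℂ) : Prop where
  ne_bot : 𝔣 ≠ ⊥
  supp : ∀ 𝔞 : Ideal (𝓞 K), 𝔞 ≠ ⊥ → (ψ 𝔞 ≠ 0 ↔ IsCoprime 𝔞 𝔣)
  ray : ∀ x : 𝓞 K, x ≠ 0 → x - 1 ∈ 𝔣 → TotPos K x → ψ (Ideal.span {x}) = 1
  prim : ∀ 𝔤 : Ideal (𝓞 K), 𝔤 ∣ 𝔣 → 𝔤 ≠ 𝔣 →
    ∃ x : 𝓞 K, x - 1 ∈ 𝔤 ∧ TotPos K x ∧ IsCoprime (Ideal.span {x}) 𝔣 ∧ ψ (Ideal.span {x}) ≠ 1

/-- `L(s) = ∑ ψ(𝔞) N(𝔞)^(-s)` for `Re s > 1`. -/
def IsHeckeL (ψ : Ideal (𝓞 K) →*₀ ℂ) (L : ℂ → ℂ) : Prop :=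
  ∀ s : ℂ, 1 < s.re →
    HasSum (fun 𝔞 : Ideal (𝓞 K) => ψ 𝔞 * ((Ideal.absNorm 𝔞 : ℕ) : ℂ) ^ (-s)) (L s)

end hecke

/-! ### Artin L-functions -/

section artin

variable {E : Type} [Field E] [NumberField E] {V : Type} [AddCommGroup V] [Module ℂ V]

/-- the inertia group of `P` in `Gal(E/ℚ)` -/
def inertia (P : Ideal (𝓞 E)) : Set (E ≃ₐ[ℚ] E) :=
  {τ | ∀ x y : 𝓞 E, (y : E) = τ (x : E) → y - x ∈ P}

/-- `σ` is a Frobenius element at the prime ideal `P` above `p`: `σ x ≡ x^p mod P`. -/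
def IsFrob (p : ℕ) (P : Ideal (𝓞 E)) (σ : E ≃ₐ[ℚ] E) : Prop :=
  P.IsPrime ∧ (p : 𝓞 E) ∈ P ∧ ∀ x y : 𝓞 E, (y : E) = σ (x : E) → y - x ^ p ∈ P

/-- The projection of `V` onto the subspace of the vectors fixed by the inertia group of `P`. -/
noncomputable def invProj (ρ : Representation ℂ (E ≃ₐ[ℚ] E) V) (P : Ideal (𝓞 E)) : V →ₗ[ℂ] V :=
  ((inertia P).ncard : ℂ)⁻¹ • ∑ᶠ τ ∈ inertia P, ρ τ

/-- `det(1 - x ρ(σ) | V^I)`, where `I` is the inertia group of `P`. -/
noncomputable def eulerPoly (ρ : Representation ℂ (E ≃ₐ[ℚ] E) V) (P : Ideal (𝓞 E))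
    (σ : E ≃ₐ[ℚ] E) (x : ℂ) : ℂ :=
  LinearMap.det (LinearMap.id - x • (ρ σ ∘ₗ invProj ρ P))

/-- For `Re s > 1` the value `L s` is that of the Artin L-function `L(s, ρ, E/ℚ)`, the product of
`det(1 - p^(-s) ρ(Frob_p) | V^(I_p))⁻¹` over all primes `p`. -/
def IsArtinL (ρ : Representation ℂ (E ≃ₐ[ℚ] E) V) (L : ℂ → ℂ) : Prop :=
  ∃ (P : Nat.Primes → Ideal (𝓞 E)) (σ : Nat.Primes → (E ≃ₐ[ℚ] E)),
    (∀ p : Nat.Primes, IsFrob p (P p) (σ p)) ∧ ∀ s : ℂ, 1 < s.re →
      HasProd (fun p : Nat.Primes => (eulerPoly ρ (P p) (σ p) (((p : ℕ) : ℂ) ^ (-s)))⁻¹) (L s)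

end artin

/-! ### Completions and products -/

/-- `Λ` is the completion of the L-function `L` of degree `n`: `Λ` is entire, of finite order in
vertical strips, `Λ(s) = (s (s - 1))^c N^(s/2) Γ_ℝ(s)^a Γ_ℝ(s + 1)^b L(s)` for `Re s > 1` with
`a + b = n` and `c ∈ {0, 1}`, and `Λ(s) = w conj Λ(1 - conj s)`.  (The factor `s (s - 1)` removes the
poles of the Dedekind zeta functions.) -/
structure IsCompletion (n : ℕ) (L Λ : ℂ → ℂ) : Prop where
  entire : Differentiable ℂ Λ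
  growth : ∀ B : ℝ, ∃ (A : ℝ) (m : ℕ), ∀ s : ℂ, |s.re| ≤ B →
    ‖Λ s‖ ≤ Real.exp (A * (1 + ‖s‖) ^ m)
  formula : ∃ N a b c : ℕ, 0 < N ∧ a + b = n ∧ c ≤ 1 ∧ ∀ s : ℂ, 1 < s.re →
    Λ s = (s * (s - 1)) ^ c *
      ((N : ℂ) ^ (s / 2) * Complex.Gammaℝ s ^ a * Complex.Gammaℝ (s + 1) ^ b * L s)
  fe : ∃ w : ℂ, ∀ s : ℂ, Λ s = w * (starRingEnd ℂ) (Λ (1 - (starRingEnd ℂ) s))

/-- `L` is an L-function of degree `n`: that of a primitive ray class character of a number field of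
degree `n`, or the Artin L-function of a representation of dimension `n > 0` of the Galois group of a
finite Galois extension of `ℚ`. -/
inductive IsLFunction : ℕ → (ℂ → ℂ) → Prop
  | hecke (K : Type) [Field K] [NumberField K] (𝔣 : Ideal (𝓞 K)) (ψ : Ideal (𝓞 K) →*₀ ℂ)
      (L : ℂ → ℂ) : IsPrimChar K 𝔣 ψ → IsHeckeL K ψ L → IsLFunction (Module.finrank ℚ K) L
  | artin (E : Type) [Field E] [NumberField E] [IsGalois ℚ E] (V : Type) [AddCommGroup V]
      [Module ℂ V] [FiniteDimensional ℂ V] (ρ : Representation ℂ (E ≃ₐ[ℚ] E) V) (L : ℂ → ℂ) :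
      0 < Module.finrank ℂ V → IsArtinL ρ L → IsLFunction (Module.finrank ℂ V) L

/-- `f = ξ Λ_1 ⋯ Λ_n`, where `Λ_i` is the completion of an L-function `L_i`, and `L_1 ⋯ L_n` is real
on `(1, ∞)`. -/
def IsProduct (f : ℂ → ℂ) : Prop :=
  ∃ (n : ℕ) (d : Fin n → ℕ) (L Λ : Fin n → ℂ → ℂ),
    (∀ i, IsLFunction (d i) (L i) ∧ IsCompletion (d i) (L i) (Λ i)) ∧
    (∀ σ : ℝ, 1 < σ → (∏ i, L i σ).im = 0) ∧ ∀ s, f s = xi s * ∏ i, Λ i s

/-- The set of the positive imaginary parts of the solutions of `f(s) = a`. -/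
def Ordinates (f : ℂ → ℂ) (a : ℂ) : Set ℝ :=
  {γ | 0 < γ ∧ ∃ β : ℝ, f ((β : ℂ) + (γ : ℂ) * Complex.I) = a}

/-- The subfield `K(a)` of `ℂ`. -/
noncomputable def adj (K : Subfield ℂ) (a : ℂ) : Subfield ℂ := Subfield.closure ((K : Set ℂ) ∪ {a})

/-! ### Proofs -/

theorem xi_zero_iff (s : ℂ) (hs : 0 < s.im) : xi s = 0 ↔ riemannZeta s = 0 := by
  have h0 : s ≠ 0 := by rintro rfl; simp at hs
  have h1 : s ≠ 1 := by rintro rfl; simp at hs
  have h1' : (1 : ℂ) - s ≠ 0 := sub_ne_zero.mpr h1.symm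
  have h2 : xi s = s * (s - 1) * completedRiemannZeta s / 2 := by
    rw [xi, completedRiemannZeta_eq]
    field_simp
    ring
  have h3 : Complex.Gammaℝ s ≠ 0 := by
    intro h
    rw [Complex.Gammaℝ_eq_zero_iff] at h
    obtain ⟨n, hn⟩ := h
    rw [hn] at hs
    simp at hs
  have h4 := riemannZeta_def_of_ne_zero h0
  have h5 : s * (s - 1) ≠ 0 := mul_ne_zero h0 (sub_ne_zero.mpr h1)
  rw [h2, h4, div_eq_zero_iff, div_eq_zero_iff, mul_eq_zero]
  constructor
  · rintro ((h | h) | h)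
    · exact absurd h h5
    · exact Or.inl h
    · norm_num at h
  · rintro (h | h)
    · exact Or.inl (Or.inr h)
    · exact absurd h h3

theorem prim_iff {K : Type} [Field K] [NumberField K] {𝔣 : Ideal (𝓞 K)} {ψ : Ideal (𝓞 K) →*₀ ℂ}
    (h : IsPrimChar K 𝔣 ψ) : Pool.Agent.Y773.G.IsPrimChar K 𝔣 ψ :=
  ⟨h.ne_bot, h.supp, h.ray, h.prim⟩

theorem comp_iff {n : ℕ} {L Λ : ℂ → ℂ} :
    IsCompletion n L Λ ↔ Pool.Agent.Y149.AR.IsComp n L Λ :=
  ⟨fun h => ⟨h.entire, h.growth, h.formula, h.fe⟩, fun h => ⟨h.entire, h.growth, h.formula, h.fe⟩⟩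

theorem logBd_of {n : ℕ} {L : ℂ → ℂ} (h : IsLFunction n L) :
    1 ≤ n ∧ Pool.Agent.Y149.AR.LogBd L := by
  cases h with
  | hecke K 𝔣 ψ L hψ hL =>
    refine ⟨Module.finrank_pos, ?_⟩
    have h1 := Pool.Agent.Y149.AR.logBd_LI ψ (Pool.Agent.Y149.AR.prim_norm (prim_iff hψ))
    refine Pool.Agent.Y149.AR.logBd_congr h1 fun s hs => ?_
    exact (hL s hs).tsum_eq.symm
  | artin E V ρ L hV hL =>
    exact ⟨hV, Pool.Agent.Y149.AR.logBd_of_isArtinL (ρ := ρ) hL⟩

theorem core {f : ℂ → ℂ} (h : IsProduct f) : Pool.Agent.Y922.AQ.Good f ∧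
    (∃ w : ℂ, ∀ s : ℂ, f (1 - s) = w * f s) ∧
    (∀ s : ℂ, f (starRingEnd ℂ s) = starRingEnd ℂ (f s)) ∧
    ∃ t : ℝ, 0 < t ∧ f (1 / 2 + t * Complex.I) = 0 := by
  obtain ⟨n, d, L, Λ, h1, h2, h3⟩ := h
  have hf : f = Pool.Agent.Y149.AR.XL (fun s => ∏ i, Λ i s) := by
    funext s
    exact h3 s
  have hc : ∀ i, Pool.Agent.Y149.AR.IsComp (d i) (L i) (Λ i) := fun i => comp_iff.1 (h1 i).2
  rw [hf]
  refine ⟨Pool.Agent.Y149.AR.good_prod Λ fun i => ?_, Pool.Agent.Y149.AR.prod_fe hc h2,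
    Pool.Agent.Y149.AR.prod_conj hc h2, Pool.Agent.Y149.AR.zero_XL _⟩
  obtain ⟨h4, h5⟩ := logBd_of (h1 i).1
  exact Pool.Agent.Y149.AR.good_comp (hc i) h4 h5

theorem unr : Pool.Agent.Y149.AR.S_UNR := Pool.Agent.Y759.AR.unr Pool.Agent.Y824.AR.ft

section dedekind

variable (E : Type) [Field E] [NumberField E]

open Classical in
/-- the trivial character -/
noncomputable def triv : Ideal (𝓞 E) →*₀ ℂ where
  toFun 𝔞 := if 𝔞 = ⊥ then 0 else 1
  map_zero' := if_pos rfl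
  map_one' := by
    rw [if_neg]
    rw [Ideal.one_eq_top]
    exact top_ne_bot
  map_mul' 𝔞 𝔟 := by
    by_cases h1 : 𝔞 = ⊥
    · rw [h1, Ideal.bot_mul, if_pos rfl, zero_mul]
    · by_cases h2 : 𝔟 = ⊥
      · rw [h2, Ideal.mul_bot, if_pos rfl, mul_zero]
      · have h3 : 𝔞 * 𝔟 ≠ ⊥ := mul_ne_zero h1 h2
        rw [if_neg h1, if_neg h2, if_neg h3, one_mul]

theorem triv_of_ne {𝔞 : Ideal (𝓞 E)} (h : 𝔞 ≠ ⊥) : triv E 𝔞 = 1 := if_neg h

theorem triv_prim : IsPrimChar E ⊤ (triv E) where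
  ne_bot := top_ne_bot
  supp 𝔞 h := by
    rw [triv_of_ne E h]
    refine ⟨fun _ => ?_, fun _ => one_ne_zero⟩
    rw [Ideal.isCoprime_iff_sup_eq, sup_top_eq]
  ray x hx _ _ := triv_of_ne E fun h => hx (Ideal.span_singleton_eq_bot.1 h)
  prim 𝔤 h1 h2 := by
    exfalso
    apply h2
    rw [← Ideal.one_eq_top] at h1 ⊢
    exact Ideal.isUnit_iff.1 (isUnit_of_dvd_one h1) |>.trans Ideal.one_eq_top.symm

theorem triv_hecke : IsHeckeL E (triv E) (dedekindZeta E) := by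
  intro s hs
  have h1 := Pool.Agent.H484R2.hasSum_ideals E hs
  rw [← Pool.Agent.H484R2.zeta_eq E hs] at h1
  have hinj : Function.Injective (Subtype.val : Pool.Agent.H484R2.NZI E → Ideal (𝓞 E)) :=
    Subtype.val_injective
  rw [← hinj.hasSum_iff (f := fun 𝔞 : Ideal (𝓞 E) =>
    triv E 𝔞 * ((Ideal.absNorm 𝔞 : ℕ) : ℂ) ^ (-s))]
  · refine h1.congr_fun fun I => ?_
    show triv E I.1 * _ = _
    rw [triv_of_ne E I.2, one_mul]
  · intro 𝔞 h𝔞
    have h2 : 𝔞 = ⊥ := by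
      by_contra h3
      exact h𝔞 ⟨⟨𝔞, h3⟩, rfl⟩
    rw [h2]
    show triv E ⊥ * _ = 0
    have h3 : triv E ⊥ = 0 := if_pos rfl
    rw [h3, zero_mul]

theorem zeta_real (σ : ℝ) (hσ : 1 < σ) : (dedekindZeta E σ).im = 0 := by
  have h1 := triv_hecke E σ (by simpa using hσ)
  have h2 := Complex.imCLM.hasSum h1
  have h3 : (fun 𝔞 : Ideal (𝓞 E) => Complex.imCLM
      (triv E 𝔞 * ((Ideal.absNorm 𝔞 : ℕ) : ℂ) ^ (-(σ : ℂ)))) = fun _ => 0 := by
    funext 𝔞
    rw [Complex.imCLM_apply]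
    by_cases h4 : 𝔞 = ⊥
    · have h5 : triv E 𝔞 = 0 := if_pos h4
      rw [h5, zero_mul, Complex.zero_im]
    · rw [triv_of_ne E h4, one_mul]
      have h5 : ((Ideal.absNorm 𝔞 : ℕ) : ℂ) ^ (-(σ : ℂ)) =
          ((((Ideal.absNorm 𝔞 : ℕ) : ℝ) ^ (-σ) : ℝ) : ℂ) := by
        rw [Complex.ofReal_cpow (Nat.cast_nonneg _)]
        push_cast
        rfl
      rw [h5, Complex.ofReal_im]
  have h4 : HasSum (fun _ : Ideal (𝓞 E) => (0 : ℝ)) (dedekindZeta E σ).im := by
    rw [← h3]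
    exact h2
  exact h4.unique hasSum_zero

end dedekind

/-- **Main theorem.**

1. Every primitive ray class character of every number field has an L-function with a completion.
2. The Dedekind zeta function of every number field `E` has a completion `Λ`, and `ξ Λ` is one of the
   products considered here.
3. Let `K` be a countable subfield of `ℂ` and `S` a countable set of products `f = ξ Λ_1 ⋯ Λ_n`
   (`IsProduct`).  There is a countable set `Exc` such that for all `f ∈ S`: if `a ∉ Exc`, then `a` is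
   transcendental over `K`, all solutions of `f(s) = a` are simple, and any solutions `s_1, …, s_m`
   with `s_i ≠ s_j` and `s_i + s_j ≠ 1` for `i ≠ j` are algebraically independent over `K(a)`; if
   moreover `a` is real, the set of the positive imaginary parts of all solutions is algebraically
   independent over `K(a)`, and solutions `β + i γ`, `β' + i γ` with the same `γ > 0` satisfy
   `β' = β` or `β' = 1 - β`.
4. For every such `f`, local inverse functions `g_i` of `f` near any `a₀` with `g_i(a₀) ≠ g_j(a₀)` and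
   `g_i(a₀) + g_j(a₀) ≠ 1` for `i ≠ j` satisfy `P(a, g_1(a), …, g_m(a)) ≠ 0` for all `a ≠ a₀` near
   `a₀`, for every polynomial `P ≠ 0` with complex coefficients.
5. `Ordinates f 0` is the set of the positive ordinates of the zeros of `ζ`, `Λ_1, …, Λ_n`. -/
theorem result :
    (∀ (K : Type) [Field K] [NumberField K] (𝔣 : Ideal (𝓞 K)) (ψ : Ideal (𝓞 K) →*₀ ℂ),
      IsPrimChar K 𝔣 ψ → ∃ L Λ : ℂ → ℂ, IsHeckeL K ψ L ∧
        IsCompletion (Module.finrank ℚ K) L Λ) ∧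
    (∀ (E : Type) [Field E] [NumberField E],
      (∃ Λ : ℂ → ℂ, IsCompletion (Module.finrank ℚ E) (dedekindZeta E) Λ) ∧
      ∀ Λ : ℂ → ℂ, IsCompletion (Module.finrank ℚ E) (dedekindZeta E) Λ →
        IsProduct (fun s => xi s * Λ s)) ∧
    (∀ K : Subfield ℂ, Countable K → ∀ S : Set (ℂ → ℂ), S.Countable → (∀ f ∈ S, IsProduct f) →
      ∃ Exc : Set ℂ, Exc.Countable ∧ ∀ f ∈ S,
        (∀ a : ℂ, a ∉ Exc → Transcendental K a ∧ (∀ s, f s = a → deriv f s ≠ 0) ∧
          ∀ (m : ℕ) (s : Fin m → ℂ), (∀ i, f (s i) = a) →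
            (∀ i j, i ≠ j → s i ≠ s j ∧ s i + s j ≠ 1) → AlgebraicIndependent (adj K a) s) ∧
        ∀ a : ℝ, (a : ℂ) ∉ Exc →
          AlgebraicIndependent (adj K a) (fun γ : Ordinates f a => ((γ : ℝ) : ℂ)) ∧
          ∀ β β' γ : ℝ, 0 < γ → f ((β : ℂ) + (γ : ℂ) * Complex.I) = a →
            f ((β' : ℂ) + (γ : ℂ) * Complex.I) = a → β' = β ∨ β' = 1 - β) ∧
    (∀ f : ℂ → ℂ, IsProduct f → ∀ (m : ℕ) (P : MvPolynomial (Option (Fin m)) ℂ), P ≠ 0 →
      ∀ (a₀ : ℂ) (g : Fin m → ℂ → ℂ), (∀ i, AnalyticAt ℂ (g i) a₀) →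
        (∀ i, ∀ᶠ a in 𝓝 a₀, f (g i a) = a) →
        (∀ i j, i ≠ j → g i a₀ ≠ g j a₀ ∧ g i a₀ + g j a₀ ≠ 1) →
        ∀ᶠ a in 𝓝[≠] a₀,
          MvPolynomial.eval (fun o : Option (Fin m) => o.elim a fun i => g i a) P ≠ 0) ∧
    ∀ (f : ℂ → ℂ) (n : ℕ) (Λ : Fin n → ℂ → ℂ), (∀ s, f s = xi s * ∏ i, Λ i s) →
      Ordinates f 0 = {γ : ℝ | 0 < γ ∧ ∃ β : ℝ, riemannZeta ((β : ℂ) + (γ : ℂ) * Complex.I) = 0 ∨
        ∃ i, Λ i ((β : ℂ) + (γ : ℂ) * Complex.I) = 0} := by
  refine ⟨?_, ?_, ?_, ?_, ?_⟩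
  · intro K _ _ 𝔣 ψ hψ
    obtain ⟨Λ, hΛ⟩ := Pool.Agent.Y149.AR.exists_comp unr (prim_iff hψ)
      (L := Pool.Agent.Y773.LI ψ) (fun _ _ => rfl)
    refine ⟨_, Λ, fun s hs => ?_, comp_iff.2 hΛ⟩
    have hs1 := Pool.Agent.Y772.DK.term_summable (a := fun 𝔞 => ψ 𝔞) (map_zero ψ)
      (Pool.Agent.Y149.AR.prim_norm (prim_iff hψ)) hs
    exact hs1.of_norm.hasSum
  · intro E _ _
    refine ⟨?_, fun Λ hΛ => ⟨1, fun _ => Module.finrank ℚ E, fun _ => dedekindZeta E, fun _ => Λ,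
      fun _ => ⟨IsLFunction.hecke E ⊤ (triv E) _ (triv_prim E) (triv_hecke E), hΛ⟩,
      fun σ hσ => ?_, fun s => ?_⟩⟩
    · obtain ⟨Λ, hΛ⟩ := Pool.Agent.Y149.AR.exists_comp unr (prim_iff (triv_prim E))
        (L := dedekindZeta E) (fun s hs => (triv_hecke E s hs).tsum_eq.symm)
      exact ⟨Λ, comp_iff.2 hΛ⟩
    · rw [Fin.prod_univ_one]
      exact zeta_real E σ hσ
    · rw [Fin.prod_univ_one]
  · intro K hK S hS hf
    have h1 : ∀ f : S, ∃ X : Set ℂ, X.Countable ∧ _ := fun f => by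
      obtain ⟨c1, c2, c3, c4⟩ := core (hf f.1 f.2)
      exact Pool.Agent.Y149.AR.gen_one c1 c2 c3 c4 K hK
    choose X hX hX1 hX2 using h1
    have := hS.to_subtype
    refine ⟨⋃ f : S, X f, Set.countable_iUnion hX, fun f hfS => ?_⟩
    have hsub : ∀ a : ℂ, a ∉ (⋃ f : S, X f) → a ∉ X ⟨f, hfS⟩ := fun a ha h =>
      ha (Set.mem_iUnion.2 ⟨⟨f, hfS⟩, h⟩)
    exact ⟨fun a ha => hX1 ⟨f, hfS⟩ a (hsub a ha), fun a ha => hX2 ⟨f, hfS⟩ a (hsub a ha)⟩
  · intro f hf m P hP a₀ g hg hXg hinj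
    obtain ⟨c1, c2, c3, c4⟩ := core hf
    exact Pool.Agent.Y149.AR.gen_fun c1 c2 c3 c4 m P hP a₀ g hg hXg hinj
  · intro f n Λ hf
    ext γ
    constructor
    · rintro ⟨h3, β, h4⟩
      have him : 0 < ((β : ℂ) + (γ : ℂ) * Complex.I).im := by simpa using h3
      refine ⟨h3, β, ?_⟩
      rw [hf, mul_eq_zero, Finset.prod_eq_zero_iff] at h4
      rcases h4 with h4 | ⟨i, -, h4⟩
      · exact Or.inl ((xi_zero_iff _ him).mp h4)
      · exact Or.inr ⟨i, h4⟩
    · rintro ⟨h3, β, h4⟩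
      have him : 0 < ((β : ℂ) + (γ : ℂ) * Complex.I).im := by simpa using h3
      refine ⟨h3, β, ?_⟩
      rw [hf, mul_eq_zero, Finset.prod_eq_zero_iff]
      rcases h4 with h4 | ⟨i, h4⟩
      · exact Or.inl ((xi_zero_iff _ him).mpr h4)
      · exact Or.inr ⟨i, Finset.mem_univ i, h4⟩

end Pool.Agent.Results.MP_347b49_nt.AlmostAllLevels
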