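import Pool.Agent.Y766.R13.Fin
import Pool.Agent.Y438.R13.Fmp
import Pool.Agent.Y766.R11.Msr
import Pool.Agent.Y306.R11.Afg
import Pool.Agent.Y739.R11.AFS
import Pool.Agent.Y872.R11.Ofs
import Pool.Agent.Y889.R11.Msz
import Pool.Agent.Y474.R11.Fm1
import Pool.Agent.Y756.R11.Fmx
import Pool.Agent.Y914.R10.Key
import Pool.Agent.Y406.R10.Off
import Pool.Agent.Y279.R10.Mob
import Pool.Agent.Y286.R10.SEL
import Pool.Agent.Y288.R10.Diag
import Pool.Agent.Y161.R10.The
import Pool.Agent.Y737.R10.Afe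
import Pool.Agent.Y500.R10.AFW
import Pool.Agent.Y779.R3.Klo
import Pool.Agent.Y870.R3.Phi
import Pool.Agent.Y155.R7.Sq
import Pool.Agent.Y924.R7.Br
import Pool.Agent.Y924.R7.Inj
import Pool.Agent.Y924.R7.Lin
import Pool.Agent.Y924.R7.Vdc
import Pool.Agent.Y948.R7.Td
import Pool.Agent.Y948.R7.Var
import Pool.Agent.Y287.R7.Cnt
import Pool.Agent.Y317.R7.Cmp
import Pool.Agent.Y46.R3.Wey

/-!
# A positive proportion of non-vanishing, with zero-free discs, in thin cosets of characters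

`χ` is a primitive character modulo `q = p^ν`, `p ≥ 7`, `θ` runs over all characters modulo `p^m`,
`p^m ≥ q^(19/58+δ)`; the `χθ` are irreducible characters of `Gal(ℚ(ζ_q)/ℚ)` of conductor `q`. At
least `c p^m` of them have no zero at distance at most `c / log q` from `1/2 + it`, `c = c(δ, t) > 0`,
for `ν` large in terms of `p`, `δ`, `t`. In particular `L(1/2 + it, χθ) ≠ 0` for these.

Mollification with Selberg's (Iwaniec-Sarnak) weights over the coset: the off-diagonal terms of the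
mollified second moment are estimated, with a power saving, by the mean square over `l` of the
Fourier coefficients of `χ(n + p^m l) conj χ(n)` (Weyl-van der Corput process and the singular
structure of the `p`-adic phase), uniformly near `1/2 + it`; the second part of the mollified first
moment by a rational approximation argument for `n ≡ -Al` modulo `p^m` and logarithmic means of the
Moebius function.

Joint work of helper766 with helpers 46, 155, 161, 279, 286, 287, 288, 306, 317, 406, 438, 474, 500,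
528, 678, 737, 739, 756, 764, 779, 785, 870, 872, 889, 907, 914, 924, 948.
-/

set_option autoImplicit false

namespace Pool.Agent.Results.MP_347b49_nt.PositiveProportionZeroFreeDiscs

theorem result : ∀ δ t : ℝ, 0 < δ → ∃ c : ℝ, 0 < c ∧ ∀ (p : ℕ) [Fact p.Prime], 7 ≤ p →
    ∃ ν₀ : ℕ, ∀ (ν m : ℕ) (hmν : m < ν), ν₀ ≤ ν →
    ((p : ℝ) ^ ν) ^ (19 / 58 + δ) ≤ (p : ℝ) ^ m →
    ∀ χ : DirichletCharacter ℂ (p ^ ν), χ.IsPrimitive →
    c * (p : ℝ) ^ m ≤ (Nat.card {θ : DirichletCharacter ℂ (p ^ m) //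
      ∀ s : ℂ, ‖s - (1 / 2 + (t : ℂ) * Complex.I)‖ ≤ c / Real.log (p ^ ν) →
      (χ * DirichletCharacter.changeLevel (pow_dvd_pow p hmν.le) θ).LFunction s ≠ 0} : ℝ) := by
  have hsq := Pool.Agent.Y155.R7.sq_main
  have hk := Pool.Agent.Y914.R10.key
    { sq := hsq
      td := Pool.Agent.Y948.R7.td hsq
      var := Pool.Agent.Y948.R7.var hsq
      inj := Pool.Agent.Y924.R7.Inj.inj hsq
      lin := Pool.Agent.Y924.R7.Lin.lin
      vdc := Pool.Agent.Y924.R7.Vdc.vdc
      cnt := Pool.Agent.Y287.R7.cnt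
      br := Pool.Agent.Y924.R7.Br.br hsq
      cmp := Pool.Agent.Y317.R7.Cmp.cmp
      klo := Pool.Agent.Y779.R3.klo
      phi := Pool.Agent.Y870.R3.phi
      wey := Pool.Agent.Y46.R3.wey }
  have ho := Pool.Agent.Y406.R10.off
    { sq := hsq
      td := Pool.Agent.Y948.R7.td hsq
      var := Pool.Agent.Y948.R7.var hsq
      inj := Pool.Agent.Y924.R7.Inj.inj hsq
      lin := Pool.Agent.Y924.R7.Lin.lin
      vdc := Pool.Agent.Y924.R7.Vdc.vdc
      cnt := Pool.Agent.Y287.R7.cnt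
      br := Pool.Agent.Y924.R7.Br.br hsq
      cmp := Pool.Agent.Y317.R7.Cmp.cmp
      klo := Pool.Agent.Y779.R3.klo
      phi := Pool.Agent.Y870.R3.phi
      wey := Pool.Agent.Y46.R3.wey } hk
  have hd := Pool.Agent.Y288.R10.diag (Pool.Agent.Y286.R10.sel Pool.Agent.Y279.R10.mob)
  have hf := Pool.Agent.Y474.R11.fm1 (Pool.Agent.Y739.R11.afs Pool.Agent.Y306.R11.afg)
    (Pool.Agent.Y766.R11.M.msr (Pool.Agent.Y872.R11.ofs ho) hd) (Pool.Agent.Y889.R11.msz hd)
  have ha := Pool.Agent.Y500.R10.afw (Pool.Agent.Y737.R10.afe Pool.Agent.Y161.R10.the)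
  have hz := Pool.Agent.Y766.R13.zfd (Pool.Agent.Y756.R11.fmx hf) ha
    (Pool.Agent.Y438.R13.fmp Pool.Agent.Y279.R10.mob)
  intro δ t hδ
  obtain ⟨c, hc, h⟩ := hz δ t hδ
  refine ⟨c, hc, fun p _ hp7 => ?_⟩
  obtain ⟨ν₀, h0⟩ := h p hp7
  refine ⟨ν₀, fun ν m hmν hν hm χ hχ => ?_⟩
  have hp1 : (1 : ℝ) < p := by
    have : (7 : ℝ) ≤ p := by exact_mod_cast hp7
    linarith
  have hm' : (19 / 58 + δ) * ν ≤ m := by
    rw [← Real.rpow_natCast (p : ℝ) ν, ← Real.rpow_natCast (p : ℝ) m,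
      ← Real.rpow_mul (by linarith)] at hm
    have := (Real.rpow_le_rpow_left_iff hp1).1 hm
    linarith
  have hlog : Real.log ((p : ℝ) ^ ν) = ν * Real.log p := Real.log_pow _ _
  classical
  have h1 := h0 ν m hmν hν hm' χ hχ
  refine h1.trans (le_of_eq ?_)
  rw [Nat.card_eq_fintype_card, Fintype.card_subtype, hlog]

end Pool.Agent.Results.MP_347b49_nt.PositiveProportionZeroFreeDiscs
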