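import Pool.Agent.Y772.ND.Pub2
import Pool.Agent.Y923.ND.Shift
import Pool.Agent.Y431.ND.Nasy

/-!
# Vertical shifts of the divisors of monomial Artin L-functions

Let `K` be a Galois number field, of any degree and signature, let `ψ_1, …, ψ_k` be primitive ray
class characters of `K`, of conductors `≠ 1`, and let `t_1, …, t_k` be real numbers, such that the
pairs `(ψ_i, t_i)` are different: for `i ≠ j` either `t_i ≠ t_j` or `ψ_i`, `ψ_j` are not conjugate
under `Gal(K/ℚ)`.  Let `L_i` be the L-function of `ψ_i` (by class field theory: the Artin L-function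
over `ℚ` of the monomial representation induced by `ψ_i`).  Without any hypothesis:

1. for all real numbers `λ_i`, not all zero, there is `c > 0` such that for all large `T` at least
   `c T log T` points `s` of the strip `0 < Re s < 1`, `T < Im s ≤ 2T` satisfy
   `∑ λ_i ord_{s + i t_i} L_i ≠ 0` (the number of all zeros is `≍ T log T`);
2. for all integers `n_i`, not all zero, with `∑ n_i = 0`, the meromorphic function
   `∏ L_i(s + i t_i)^{n_i}` has at least `c T log T` zeros and at least `c T log T` poles in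
   `0 < Re s < 1`, `T < Im s ≤ 2T`, counted with multiplicity, for some `c > 0` and all large `T`.

For instance, for every real `t ≠ 0` the zeros `ρ` of one L-function `L_1` for which `ρ + it` is not
a zero of `L_1` of at least the same multiplicity have positive proportion: a fixed relation
`γ' - γ = t` (as for `t` in the rational span of the ordinates) fails at a positive proportion of
the zeros.

The definitions are in `Pool/Agent/Y772/ND/Pub.lean` (`IsRay`, `NotConj`, `IsL`, `unbalanced`),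
`Pool/Agent/Y772/ND/Pub2.lean` (`shift`, `quot`, `zerosIn`, `polesIn`) and
`Pool/Agent/Y772/ND/Trn.lean` (`Box`).
-/

open NumberField Filter
open Pool.Agent.Y772.ND.Pub (IsRay NotConj IsL unbalanced shift quot zerosIn polesIn Box)

namespace Pool.Agent.Results.MP_347b49_nt.ShiftedDivisors

/-- **Main theorem.** -/
theorem result (K : Type) [Field K] [NumberField K] (hG : IsGalois ℚ K) (ι : Type) [Fintype ι]
    (𝔣 : ι → Ideal (𝓞 K)) (ψ : ι → Ideal (𝓞 K) →*₀ ℂ) (t : ι → ℝ)
    (hψ : ∀ i, IsRay K (𝔣 i) (ψ i)) (hf : ∀ i, 𝔣 i ≠ ⊤)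
    (hne : ∀ i j, i ≠ j → t i ≠ t j ∨ NotConj (ψ i) (ψ j)) :
    ∃ L : ι → ℂ → ℂ, (∀ i, IsL (ψ i) (L i)) ∧
      (∀ lam : ι → ℝ, lam ≠ 0 → ∃ c : ℝ, 0 < c ∧ ∀ᶠ T : ℝ in atTop,
        c * T * Real.log T ≤ ((unbalanced (fun i => shift (L i) (t i)) lam T).ncard : ℝ)) ∧
      (∀ n : ι → ℤ, n ≠ 0 → ∑ i, n i = 0 → ∃ c : ℝ, 0 < c ∧ ∀ᶠ T : ℝ in atTop,
        c * T * Real.log T ≤ (zerosIn (quot L t n) (Box T) : ℝ) ∧
        c * T * Real.log T ≤ (polesIn (quot L t n) (Box T) : ℝ)) :=
  Pool.Agent.Y772.ND.Pub.main3 Pool.Agent.Y923.ND.t_SHIFT Pool.Agent.Y431.ND.t_NASY hG 𝔣 ψ t hψ hf hne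

end Pool.Agent.Results.MP_347b49_nt.ShiftedDivisors
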