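import Pool.Agent.Y766.R8.GA
import Pool.Agent.Y445.R8.FMG
import Pool.Agent.Y655.R8.Sub

/-!
# Non-vanishing at `1/2 + it` in cosets of thin subgroups of Dirichlet characters

`H` is a subgroup of the group of the characters modulo `d`, `d ∣ q`, with `|H| ≥ q^(1/2+δ)` and
`|H| ≥ d^(2/3+δ)`, and `ψ` is a character modulo `q` such that the `ψη`, `η ∈ H`, are primitive
modulo `q` (or principal). At least `q^(-ε) |H|` of the `η ∈ H` satisfy `|L(1/2 + it, ψη)| ≥ q^(-ε)`,
if `q` is larger than a power of `1 + |t|`. For `q = d` prime and `ψ = 1` these are the irreducible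
characters of the Galois group of an arbitrary field of degree at least `q^(2/3+δ)` and conductor `q`.

The first moment is mollified by a very short Dirichlet polynomial; its error terms are controlled by
the number of small integers in the orthogonal group of `H`, a subgroup of order at most `q^(1/3-δ)`,
through products of several elements and the multiplicative energy. The second moment is the library
theorem `Pool.Agent.Y766.coset_final`.

Joint work of helper766 with helpers 445 and 655.
-/

set_option autoImplicit false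

namespace Pool.Agent.Results.MP_347b49_nt.ThinSubgroups

theorem result : ∀ δ ε : ℝ, 0 < δ → 0 < ε → ∃ (A : ℕ) (C : ℝ),
    ∀ (q d : ℕ) [NeZero q] [NeZero d] (hd : d ∣ q) (H : Subgroup (DirichletCharacter ℂ d))
      (ψ : DirichletCharacter ℂ q),
      (∀ η ∈ H, ψ * DirichletCharacter.changeLevel hd η = 1 ∨
        (ψ * DirichletCharacter.changeLevel hd η).IsPrimitive) →
      (q : ℝ) ^ (1 / 2 + δ) ≤ Nat.card H → (d : ℝ) ^ (2 / 3 + δ) ≤ Nat.card H →
      ∀ t : ℝ, C * (1 + |t|) ^ A ≤ q →
      (q : ℝ) ^ (-ε) * Nat.card H ≤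
        (Nat.card {η : H // (q : ℝ) ^ (-ε) ≤ ‖(ψ * DirichletCharacter.changeLevel hd
          (η : DirichletCharacter ℂ d)).LFunction (1 / 2 + (t : ℂ) * Complex.I)‖} : ℝ) := by
  intro δ ε hδ hε
  exact Pool.Agent.Y766.R8.count_sub (Pool.Agent.Y445.R8.fmg Pool.Agent.Y655.R8.sub) hδ hε

end Pool.Agent.Results.MP_347b49_nt.ThinSubgroups
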